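import Mathlib

/-!
# A conditional basis with Property (A)

For a scalar sequence `x`, a finite set `A` and `n : ℕ` put
`V x A n = |A|^{-1/2} ∑_{i ∈ A} |x i| + | ∑_{|A| ≤ i < n, i ∉ A} x i / (4 √(i+1)) |`
and let `‖x‖` be the supremum of `V x A n` over all `A` and `n`.  The closed linear span of the
unit vectors is a Banach space, the unit vectors form a basis of it with Property (A), and this
basis is not unconditional.

*Property (A).*  If `|x i| ≤ 1` for all `i` and `|x j| = 1`, `j ∉ A`, then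
`V x A n ≤ V x (A ∪ {j}) n`: the first term grows at least by `√(k+1) - √k ≥ 1 / (2 √(k+1))`,
`k = |A|`, and at most two terms, each of modulus at most `1 / (4 √(k+1))`, are removed from the
sum.  So the supremum may be taken over the sets `A` which contain the set where the coordinates
of modulus one were added, and it does not depend on its position and on the signs.

*Conditionality.*  The vectors `∑_{i < n} (-1)^i e_i / √(i+1)` are bounded, but their projections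
on the even coordinates are not.
-/

set_option autoImplicit false

namespace Pool.Agent.Results.MP_e9a5f2_an.ConditionalPropertyA

open Finset

section Defs

variable {𝕜 X : Type*} [RCLike 𝕜] [NormedAddCommGroup X] [NormedSpace 𝕜 X]

/-- `x`, with coordinate functionals `xs`, is a basis in the sense of the problem, i.e. a
semi-normalized Markushevich basis: the linear span of the `x n` is dense, the `xs n` are
biorthogonal to the `x n` and separate the points, and the norms of all `x n` and `xs n` are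
bounded. -/
structure IsBasis (x : ℕ → X) (xs : ℕ → X →L[𝕜] 𝕜) : Prop where
  dense : Dense ((Submodule.span 𝕜 (Set.range x) : Submodule 𝕜 X) : Set X)
  biorthogonal : ∀ n j, xs n (x j) = if n = j then 1 else 0
  total : ∀ f, (∀ n, xs n f = 0) → f = 0
  bounded : ∃ C : ℝ, ∀ n, ‖x n‖ ≤ C ∧ ‖xs n‖ ≤ C

/-- Property (A), symmetry for largest coefficients. -/
def PropertyA (x : ℕ → X) (xs : ℕ → X →L[𝕜] 𝕜) : Prop :=
  ∀ (f : X) (A B : Finset ℕ) (ε η : ℕ → 𝕜), (∀ n, ‖xs n f‖ ≤ 1) → A.card = B.card →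
    Disjoint A B → (∀ n ∈ A, xs n f = 0) → (∀ n ∈ B, xs n f = 0) →
    (∀ n ∈ A, ‖ε n‖ = 1) → (∀ n ∈ B, ‖η n‖ = 1) →
    ‖f + ∑ n ∈ A, ε n • x n‖ = ‖f + ∑ n ∈ B, η n • x n‖

/-- The basis is unconditional: for every `f` the series `∑ xs n f • x n` converges
unconditionally to `f`. -/
def IsUnconditional (x : ℕ → X) (xs : ℕ → X →L[𝕜] 𝕜) : Prop :=
  ∀ f : X, HasSum (fun n => xs n f • x n) f

end Defs

section Coefficients

/-- the coefficients `1 / (4 √(i+1))` -/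
noncomputable def cf (i : ℕ) : ℝ := (4 * Real.sqrt ((i : ℝ) + 1))⁻¹

lemma sqrt_succ_pos (i : ℕ) : 0 < Real.sqrt ((i : ℝ) + 1) := Real.sqrt_pos.2 (by positivity)

lemma cf_pos (i : ℕ) : 0 < cf i := by
  have := sqrt_succ_pos i
  unfold cf
  positivity

lemma cf_anti {i j : ℕ} (h : i ≤ j) : cf j ≤ cf i := by
  have h0 := sqrt_succ_pos i
  unfold cf
  apply inv_anti₀ (by positivity)
  have : Real.sqrt ((i : ℝ) + 1) ≤ Real.sqrt ((j : ℝ) + 1) := by
    apply Real.sqrt_le_sqrt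
    have : (i : ℝ) ≤ j := by exact_mod_cast h
    linarith
  linarith

lemma cf_le (i : ℕ) : cf i ≤ 1 / 4 := by
  have h := cf_anti (Nat.zero_le i)
  have : cf 0 = 1 / 4 := by unfold cf; simp
  rwa [this] at h

/-- the gain in the first term when a coordinate of modulus one is added -/
lemma gain (k : ℕ) (S : ℝ) (hS0 : 0 ≤ S) (hS : S ≤ k) :
    (Real.sqrt (k : ℝ))⁻¹ * S + 2 * cf k ≤ (Real.sqrt ((k + 1 : ℕ) : ℝ))⁻¹ * (S + 1) := by
  set a := Real.sqrt (k : ℝ) with ha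
  set b := Real.sqrt ((k + 1 : ℕ) : ℝ) with hb
  have hb' : b = Real.sqrt ((k : ℝ) + 1) := by rw [hb]; push_cast; rfl
  have ha0 : 0 ≤ a := Real.sqrt_nonneg _
  have hb0 : 0 < b := by rw [hb']; exact sqrt_succ_pos k
  have ha2 : a ^ 2 = k := Real.sq_sqrt (Nat.cast_nonneg k)
  have hb2 : b ^ 2 = a ^ 2 + 1 := by
    rw [ha2, hb', Real.sq_sqrt (by positivity)]
  have hab : a ≤ b := by nlinarith
  have hc : 2 * cf k = (2 * b)⁻¹ := by
    unfold cf
    rw [← hb', mul_inv, mul_inv]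
    ring
  rw [hc]
  rcases eq_or_lt_of_le ha0 with h0 | hapos
  · have hS' : S = 0 := by
      have : (k : ℝ) = 0 := by rw [← ha2, ← h0]; ring
      linarith
    rw [← h0, hS', inv_zero, zero_mul, zero_add, zero_add, mul_one]
    apply inv_anti₀ hb0
    linarith
  · have h1 : b⁻¹ * (S + 1) - a⁻¹ * S - (2 * b)⁻¹ =
        (a - 2 * S * (b - a)) / (2 * a * b) := by
      field_simp
      ring
    have h2 : 0 ≤ (a - 2 * S * (b - a)) / (2 * a * b) := by
      apply div_nonneg _ (by positivity)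
      have h3 : S * (b - a) ≤ a ^ 2 * (b - a) := by
        apply mul_le_mul_of_nonneg_right _ (by linarith)
        rw [ha2]; exact hS
      have h4 : (b - a) * (b + a) = 1 := by ring_nf; linarith
      -- 2 a^2 (b - a) ≤ a since 2 a ≤ a + b
      have h5 : 2 * a * (b - a) ≤ 1 := by nlinarith
      nlinarith
    linarith

end Coefficients

section Functionals

variable {𝕜 : Type} [RCLike 𝕜]

/-- The seminorms of which the norm is the supremum. -/
noncomputable def V (x : ℕ → 𝕜) (A : Finset ℕ) (n : ℕ) : ℝ :=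
  (Real.sqrt (A.card : ℝ))⁻¹ * ∑ i ∈ A, ‖x i‖ + ‖∑ i ∈ Ico A.card n \ A, (cf i : 𝕜) * x i‖

lemma V_nonneg (x : ℕ → 𝕜) (A : Finset ℕ) (n : ℕ) : 0 ≤ V x A n := by
  unfold V
  have : 0 ≤ ∑ i ∈ A, ‖x i‖ := sum_nonneg fun _ _ => norm_nonneg _
  positivity

lemma V_zero (A : Finset ℕ) (n : ℕ) : V (0 : ℕ → 𝕜) A n = 0 := by
  simp [V]

lemma V_add (x y : ℕ → 𝕜) (A : Finset ℕ) (n : ℕ) : V (x + y) A n ≤ V x A n + V y A n := by
  unfold V
  have h1 : ∑ i ∈ A, ‖(x + y) i‖ ≤ ∑ i ∈ A, ‖x i‖ + ∑ i ∈ A, ‖y i‖ := by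
    rw [← sum_add_distrib]
    exact sum_le_sum fun i _ => norm_add_le _ _
  have h2 : ‖∑ i ∈ Ico A.card n \ A, (cf i : 𝕜) * (x + y) i‖ ≤
      ‖∑ i ∈ Ico A.card n \ A, (cf i : 𝕜) * x i‖ + ‖∑ i ∈ Ico A.card n \ A, (cf i : 𝕜) * y i‖ := by
    have : ∑ i ∈ Ico A.card n \ A, (cf i : 𝕜) * (x + y) i =
        ∑ i ∈ Ico A.card n \ A, (cf i : 𝕜) * x i + ∑ i ∈ Ico A.card n \ A, (cf i : 𝕜) * y i := by
      rw [← sum_add_distrib]
      refine sum_congr rfl fun i _ => ?_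
      rw [Pi.add_apply, mul_add]
    rw [this]
    exact norm_add_le _ _
  have h3 : 0 ≤ (Real.sqrt (A.card : ℝ))⁻¹ := by positivity
  have h4 := mul_le_mul_of_nonneg_left h1 h3
  rw [mul_add] at h4
  linarith

lemma V_smul (c : 𝕜) (x : ℕ → 𝕜) (A : Finset ℕ) (n : ℕ) : V (c • x) A n = ‖c‖ * V x A n := by
  unfold V
  have h1 : ∑ i ∈ A, ‖(c • x) i‖ = ‖c‖ * ∑ i ∈ A, ‖x i‖ := by
    rw [mul_sum]
    refine sum_congr rfl fun i _ => ?_
    rw [Pi.smul_apply, norm_smul]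
  have h2 : ∑ i ∈ Ico A.card n \ A, (cf i : 𝕜) * (c • x) i =
      c * ∑ i ∈ Ico A.card n \ A, (cf i : 𝕜) * x i := by
    rw [mul_sum]
    refine sum_congr rfl fun i _ => ?_
    rw [Pi.smul_apply, smul_eq_mul]
    ring
  rw [h1, h2, norm_mul]
  ring

lemma V_neg (x : ℕ → 𝕜) (A : Finset ℕ) (n : ℕ) : V (-x) A n = V x A n := by
  have := V_smul (-1 : 𝕜) x A n
  rw [norm_neg, norm_one, one_mul] at this
  rw [← this]
  congr 1
  simp

lemma V_singleton (x : ℕ → 𝕜) (i : ℕ) : V x {i} 0 = ‖x i‖ := by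
  simp [V]

/-- a bound of `V` by the sum of the moduli -/
lemma V_single_le (j : ℕ) (c : 𝕜) (A : Finset ℕ) (n : ℕ) :
    V (Pi.single j c : ℕ → 𝕜) A n ≤ 2 * ‖c‖ := by
  unfold V
  have h1 : ∑ i ∈ A, ‖(Pi.single j c : ℕ → 𝕜) i‖ ≤ ‖c‖ := by
    by_cases h : j ∈ A
    · rw [sum_eq_single_of_mem j h (fun b _ hb => by simp [hb])]
      simp
    · rw [sum_eq_zero]
      · exact norm_nonneg _
      · intro i hi
        have : i ≠ j := fun h' => h (h' ▸ hi)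
        simp [this]
  have h2 : ‖∑ i ∈ Ico A.card n \ A, (cf i : 𝕜) * (Pi.single j c : ℕ → 𝕜) i‖ ≤ ‖c‖ := by
    by_cases h : j ∈ Ico A.card n \ A
    · rw [sum_eq_single_of_mem j h (fun b _ hb => by simp [hb])]
      rw [Pi.single_eq_same, norm_mul, RCLike.norm_ofReal, abs_of_pos (cf_pos j)]
      have := cf_le j
      nlinarith [norm_nonneg c]
    · rw [sum_eq_zero]
      · simp
      · intro i hi
        have : i ≠ j := fun h' => h (h' ▸ hi)
        simp [this]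
  have h3 : (Real.sqrt (A.card : ℝ))⁻¹ ≤ 1 := by
    rcases Nat.eq_zero_or_pos A.card with h | h
    · rw [h]; simp
    · apply inv_le_one_of_one_le₀
      rw [Real.one_le_sqrt]
      exact_mod_cast h
  have h4 : (Real.sqrt (A.card : ℝ))⁻¹ * ∑ i ∈ A, ‖(Pi.single j c : ℕ → 𝕜) i‖ ≤ 1 * ‖c‖ := by
    apply mul_le_mul h3 h1 (sum_nonneg fun _ _ => norm_nonneg _) zero_le_one
  linarith

/-- Key step: adding to `A` an index where the coordinate has modulus one does not decrease `V`. -/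
lemma V_insert (x : ℕ → 𝕜) (hx : ∀ i, ‖x i‖ ≤ 1) (A : Finset ℕ) (n j : ℕ) (hj : j ∉ A)
    (hxj : ‖x j‖ = 1) : V x A n ≤ V x (insert j A) n := by
  unfold V
  rw [card_insert_of_notMem hj, sum_insert hj, hxj, add_comm (1 : ℝ)]
  set k := A.card with hk
  have hS0 : 0 ≤ ∑ i ∈ A, ‖x i‖ := sum_nonneg fun _ _ => norm_nonneg _
  have hS : ∑ i ∈ A, ‖x i‖ ≤ k := by
    calc ∑ i ∈ A, ‖x i‖ ≤ ∑ _i ∈ A, (1 : ℝ) := sum_le_sum fun i _ => hx i
      _ = k := by simp [hk]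
  have hg := gain k _ hS0 hS
  have hsub : Ico (k + 1) n \ insert j A ⊆ Ico k n \ A := by
    intro i hi
    simp only [Finset.mem_sdiff, mem_Ico, mem_insert, not_or] at hi ⊢
    exact ⟨⟨by omega, hi.1.2⟩, hi.2.2⟩
  have hsplit := sum_sdiff hsub (f := fun i => (cf i : 𝕜) * x i)
  set R := (Ico k n \ A) \ (Ico (k + 1) n \ insert j A) with hR
  have hRsub : R ⊆ {k, j} := by
    intro i hi
    simp only [hR, Finset.mem_sdiff, mem_Ico, mem_insert, not_and, not_not, not_or, mem_singleton] at hi ⊢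
    obtain ⟨⟨h1, h2⟩, h3⟩ := hi
    by_contra hcon
    push Not at hcon
    have h4 := h3 ⟨by omega, h1.2⟩ hcon.2
    exact h2 h4
  have hRnorm : ‖∑ i ∈ R, (cf i : 𝕜) * x i‖ ≤ 2 * cf k := by
    calc ‖∑ i ∈ R, (cf i : 𝕜) * x i‖ ≤ ∑ i ∈ R, ‖(cf i : 𝕜) * x i‖ := norm_sum_le _ _
      _ ≤ ∑ _i ∈ R, cf k := by
          refine sum_le_sum fun i hi => ?_
          rw [norm_mul, RCLike.norm_ofReal, abs_of_pos (cf_pos i)]
          have hki : k ≤ i := by
            simp only [hR, Finset.mem_sdiff, mem_Ico] at hi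
            exact hi.1.1.1
          calc cf i * ‖x i‖ ≤ cf k * 1 :=
                mul_le_mul (cf_anti hki) (hx i) (norm_nonneg _) (cf_pos k).le
            _ = cf k := mul_one _
      _ = R.card * cf k := by rw [sum_const, nsmul_eq_mul]
      _ ≤ 2 * cf k := by
          have h1 : R.card ≤ 2 := (card_le_card hRsub).trans (card_le_two)
          have h2 : (R.card : ℝ) ≤ 2 := by exact_mod_cast h1
          exact mul_le_mul_of_nonneg_right h2 (cf_pos k).le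
  have hT : ‖∑ i ∈ Ico k n \ A, (cf i : 𝕜) * x i‖ ≤
      2 * cf k + ‖∑ i ∈ Ico (k + 1) n \ insert j A, (cf i : 𝕜) * x i‖ := by
    rw [← hsplit]
    exact (norm_add_le _ _).trans (add_le_add hRnorm le_rfl)
  linarith

lemma V_union (x : ℕ → 𝕜) (hx : ∀ i, ‖x i‖ ≤ 1) (n : ℕ) (D : Finset ℕ)
    (hD : ∀ i ∈ D, ‖x i‖ = 1) (A : Finset ℕ) : V x A n ≤ V x (D ∪ A) n := by
  classical
  induction D using Finset.induction_on with
  | empty => rw [empty_union]
  | insert j D hj ih =>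
    have ih' := ih fun i hi => hD i (mem_insert_of_mem hi)
    rw [insert_union]
    by_cases h : j ∈ D ∪ A
    · rw [insert_eq_of_mem h]
      exact ih'
    · exact ih'.trans (V_insert x hx _ n j h (hD j (mem_insert_self _ _)))

end Functionals

section Exchange

variable {𝕜 : Type} [RCLike 𝕜]

/-- the value of `V` on a vector `y + 1_{εD}` and a set `A ⊇ D` depends only on the cardinalities
and on the part of `A` off `D ∪ B` -/
lemma V_form (y : ℕ → 𝕜) (D B A₀ C : Finset ℕ) (ε : ℕ → 𝕜) (hyD : ∀ i ∈ D, y i = 0)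
    (hyB : ∀ i ∈ B, y i = 0) (hDB : Disjoint D B) (hA₀ : Disjoint A₀ (D ∪ B)) (hC : C ⊆ B)
    (hε : ∀ i ∈ D, ‖ε i‖ = 1) (n : ℕ) :
    V (fun i => y i + if i ∈ D then ε i else 0) (A₀ ∪ (D ∪ C)) n =
      (Real.sqrt ((A₀.card + (D.card + C.card) : ℕ) : ℝ))⁻¹ * (∑ i ∈ A₀, ‖y i‖ + D.card) +
        ‖∑ i ∈ Ico (A₀.card + (D.card + C.card)) n \ (A₀ ∪ (D ∪ B)), (cf i : 𝕜) * y i‖ := by
  have hDC : Disjoint D C := hDB.mono_right hC
  have hA₀' : Disjoint A₀ (D ∪ C) := hA₀.mono_right (union_subset_union_right hC)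
  have hcard : (A₀ ∪ (D ∪ C)).card = A₀.card + (D.card + C.card) := by
    rw [card_union_of_disjoint hA₀', card_union_of_disjoint hDC]
  unfold V
  rw [hcard]
  congr 2
  · rw [sum_union hA₀', sum_union hDC]
    have h1 : ∑ i ∈ A₀, ‖y i + if i ∈ D then ε i else 0‖ = ∑ i ∈ A₀, ‖y i‖ := by
      refine sum_congr rfl fun i hi => ?_
      have : i ∉ D := fun h => (Finset.disjoint_left.1 hA₀ hi) (mem_union_left _ h)
      rw [if_neg this, add_zero]
    have h2 : ∑ i ∈ D, ‖y i + if i ∈ D then ε i else 0‖ = D.card := by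
      rw [card_eq_sum_ones, Nat.cast_sum]
      refine sum_congr rfl fun i hi => ?_
      rw [if_pos hi, hyD i hi, zero_add, hε i hi, Nat.cast_one]
    have h3 : ∑ i ∈ C, ‖y i + if i ∈ D then ε i else 0‖ = 0 := by
      refine sum_eq_zero fun i hi => ?_
      have : i ∉ D := fun h => Finset.disjoint_left.1 hDB h (hC hi)
      rw [if_neg this, add_zero, hyB i (hC hi), norm_zero]
    rw [h1, h2, h3, add_zero]
  · -- conditional parts
    have hsub : Ico (A₀.card + (D.card + C.card)) n \ (A₀ ∪ (D ∪ B)) ⊆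
        Ico (A₀.card + (D.card + C.card)) n \ (A₀ ∪ (D ∪ C)) := by
      apply sdiff_subset_sdiff le_rfl
      exact union_subset_union_right (union_subset_union_right hC)
    rw [← sum_subset hsub]
    · refine sum_congr rfl fun i hi => ?_
      have : i ∉ D := fun h => (Finset.mem_sdiff.1 hi).2
        (mem_union_right _ (mem_union_left _ h))
      simp only
      rw [if_neg this, add_zero]
    · intro i hi hi'
      rw [Finset.mem_sdiff] at hi hi'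
      have h1 : i ∈ A₀ ∪ (D ∪ B) := by
        by_contra h
        exact hi' ⟨hi.1, h⟩
      have h2 : i ∉ A₀ := fun h => hi.2 (mem_union_left _ h)
      have h3 : i ∉ D := fun h => hi.2 (mem_union_right _ (mem_union_left _ h))
      have h4 : i ∈ B := by
        simp only [mem_union] at h1
        tauto
      simp only
      rw [if_neg h3, add_zero, hyB i h4, mul_zero]

/-- For every set `A` there is a set `A'` such that `V (y + 1_{εD}) A n ≤ V (y + 1_{ηB}) A' n`. -/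
lemma V_exchange (y : ℕ → 𝕜) (hy : ∀ i, ‖y i‖ ≤ 1) (D B : Finset ℕ) (ε η : ℕ → 𝕜)
    (hyD : ∀ i ∈ D, y i = 0) (hyB : ∀ i ∈ B, y i = 0) (hDB : Disjoint D B)
    (hcard : D.card = B.card) (hε : ∀ i ∈ D, ‖ε i‖ = 1) (hη : ∀ i ∈ B, ‖η i‖ = 1)
    (A : Finset ℕ) (n : ℕ) :
    ∃ A' : Finset ℕ, V (fun i => y i + if i ∈ D then ε i else 0) A n ≤
      V (fun i => y i + if i ∈ B then η i else 0) A' n := by
  set x : ℕ → 𝕜 := fun i => y i + if i ∈ D then ε i else 0 with hx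
  have hxD : ∀ i ∈ D, ‖x i‖ = 1 := by
    intro i hi
    rw [hx]
    simp only
    rw [if_pos hi, hyD i hi, zero_add, hε i hi]
  have hx1 : ∀ i, ‖x i‖ ≤ 1 := by
    intro i
    by_cases hi : i ∈ D
    · exact (hxD i hi).le
    · rw [hx]
      simp only
      rw [if_neg hi, add_zero]
      exact hy i
  have h1 : V x A n ≤ V x (D ∪ A) n := V_union x hx1 n D hxD A
  set A₀ := A \ (D ∪ B) with hA₀
  have hA₀d : Disjoint A₀ (D ∪ B) := sdiff_disjoint
  set C := A ∩ B with hCdef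
  have hC : C ⊆ B := inter_subset_right
  have hDA : D ∪ A = A₀ ∪ (D ∪ C) := by
    ext i
    simp only [hA₀, hCdef, mem_union, Finset.mem_sdiff, mem_inter, not_or]
    tauto
  obtain ⟨C', hC', hCC'⟩ : ∃ C' ⊆ D, C'.card = C.card := by
    apply exists_subset_card_eq
    rw [hcard]
    exact card_le_card hC
  refine ⟨A₀ ∪ (B ∪ C'), h1.trans (le_of_eq ?_)⟩
  rw [hDA, hx, V_form y D B A₀ C ε hyD hyB hDB hA₀d hC hε n]
  rw [V_form y B D A₀ C' η hyB hyD hDB.symm (by rwa [union_comm B D]) hC' hη n]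
  rw [hCC', hcard, union_comm B D]

end Exchange

section Conditional

/-- alternating sums -/
lemma alt_sum (d : ℕ) : ∀ k : ℕ, 0 ≤ (-1 : ℝ) ^ k * ∑ i ∈ Ico k (k + d), (-1 : ℝ) ^ i / ((i : ℝ) + 1) ∧
    (-1 : ℝ) ^ k * ∑ i ∈ Ico k (k + d), (-1 : ℝ) ^ i / ((i : ℝ) + 1) ≤ 1 / ((k : ℝ) + 1) := by
  induction d with
  | zero =>
    intro k
    simp only [add_zero, Ico_self, sum_empty, mul_zero, le_refl, true_and]
    positivity
  | succ d ih =>
    intro k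
    have h := ih (k + 1)
    have hsplit : ∑ i ∈ Ico k (k + (d + 1)), (-1 : ℝ) ^ i / ((i : ℝ) + 1) =
        (-1 : ℝ) ^ k / ((k : ℝ) + 1) + ∑ i ∈ Ico (k + 1) (k + 1 + d), (-1 : ℝ) ^ i / ((i : ℝ) + 1) := by
      rw [sum_eq_sum_Ico_succ_bot (by omega)]
      congr 2
      congr 1
      omega
    have hsq : (-1 : ℝ) ^ k * (-1 : ℝ) ^ k = 1 := by
      rw [← pow_add, ← two_mul, pow_mul]
      norm_num
    set S := ∑ i ∈ Ico (k + 1) (k + 1 + d), (-1 : ℝ) ^ i / ((i : ℝ) + 1) with hS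
    have hval : (-1 : ℝ) ^ k * ((-1 : ℝ) ^ k / ((k : ℝ) + 1) + S) =
        1 / ((k : ℝ) + 1) - (-1 : ℝ) ^ (k + 1) * S := by
      rw [mul_add, mul_div_assoc', hsq, pow_succ]
      ring
    rw [hsplit, hval]
    have hk : 1 / (((k + 1 : ℕ) : ℝ) + 1) ≤ 1 / ((k : ℝ) + 1) := by
      apply one_div_le_one_div_of_le (by positivity)
      push_cast
      linarith
    constructor
    · linarith [h.2]
    · linarith [h.1]

lemma alt_sum_abs (k m : ℕ) : |∑ i ∈ Ico k m, (-1 : ℝ) ^ i / ((i : ℝ) + 1)| ≤ 1 := by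
  rcases le_total m k with h | h
  · rw [Ico_eq_empty_of_le h]
    simp
  · obtain ⟨d, rfl⟩ := Nat.exists_eq_add_of_le h
    have h1 := alt_sum d k
    have h2 : |(-1 : ℝ) ^ k * ∑ i ∈ Ico k (k + d), (-1 : ℝ) ^ i / ((i : ℝ) + 1)| ≤ 1 := by
      rw [abs_of_nonneg h1.1]
      refine h1.2.trans ?_
      rw [div_le_one (by positivity)]
      have : (0 : ℝ) ≤ k := Nat.cast_nonneg k
      linarith
    rwa [abs_mul, abs_pow, abs_neg, abs_one, one_pow, one_mul] at h2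

lemma sum_inv_sqrt_le (k : ℕ) :
    ∑ i ∈ range k, (Real.sqrt ((i : ℝ) + 1))⁻¹ ≤ 2 * Real.sqrt k := by
  induction k with
  | zero => simp
  | succ k ih =>
    rw [sum_range_succ]
    push_cast
    set a := Real.sqrt (k : ℝ) with ha
    set b := Real.sqrt ((k : ℝ) + 1) with hb
    have ha0 : 0 ≤ a := Real.sqrt_nonneg _
    have hb0 : 0 < b := sqrt_succ_pos k
    have ha2 : a ^ 2 = k := Real.sq_sqrt (Nat.cast_nonneg k)
    have hb2 : b ^ 2 = a ^ 2 + 1 := by rw [ha2, hb, Real.sq_sqrt (by positivity)]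
    have hab : a ≤ b := by nlinarith
    have h1 : b⁻¹ ≤ 2 * (b - a) := by
      rw [inv_le_iff_one_le_mul₀ hb0]
      nlinarith
    linarith

lemma sum_inv_sqrt_finset (A : Finset ℕ) :
    (Real.sqrt (A.card : ℝ))⁻¹ * ∑ i ∈ A, (Real.sqrt ((i : ℝ) + 1))⁻¹ ≤ 3 := by
  set k := A.card with hk
  rcases Nat.eq_zero_or_pos k with h0 | hpos
  · rw [h0]; simp
  have hk0 : (0 : ℝ) < k := by exact_mod_cast hpos
  have hs : 0 < Real.sqrt (k : ℝ) := Real.sqrt_pos.2 hk0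
  have h1 : ∑ i ∈ A ∩ range k, (Real.sqrt ((i : ℝ) + 1))⁻¹ ≤ 2 * Real.sqrt k := by
    refine le_trans ?_ (sum_inv_sqrt_le k)
    exact sum_le_sum_of_subset_of_nonneg inter_subset_right fun i _ _ => by positivity
  have h2 : ∑ i ∈ A \ range k, (Real.sqrt ((i : ℝ) + 1))⁻¹ ≤ Real.sqrt k := by
    calc ∑ i ∈ A \ range k, (Real.sqrt ((i : ℝ) + 1))⁻¹
        ≤ ∑ _i ∈ A \ range k, (Real.sqrt (k : ℝ))⁻¹ := by
          refine sum_le_sum fun i hi => ?_
          rw [Finset.mem_sdiff, mem_range, not_lt] at hi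
          apply inv_anti₀ hs
          apply Real.sqrt_le_sqrt
          have : (k : ℝ) ≤ i := by exact_mod_cast hi.2
          linarith
      _ = (A \ range k).card * (Real.sqrt (k : ℝ))⁻¹ := by rw [sum_const, nsmul_eq_mul]
      _ ≤ k * (Real.sqrt (k : ℝ))⁻¹ := by
          apply mul_le_mul_of_nonneg_right _ (by positivity)
          exact_mod_cast card_le_card sdiff_subset
      _ = Real.sqrt k := by
          rw [← div_eq_mul_inv, Real.div_sqrt]
  have h3 : ∑ i ∈ A, (Real.sqrt ((i : ℝ) + 1))⁻¹ ≤ 3 * Real.sqrt k := by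
    rw [← sum_inter_add_sum_sdiff A (range k)]
    linarith
  calc (Real.sqrt (k : ℝ))⁻¹ * ∑ i ∈ A, (Real.sqrt ((i : ℝ) + 1))⁻¹
      ≤ (Real.sqrt (k : ℝ))⁻¹ * (3 * Real.sqrt k) := by
        apply mul_le_mul_of_nonneg_left h3 (by positivity)
    _ = 3 := by field_simp

variable {𝕜 : Type} [RCLike 𝕜]

/-- the coefficients of the test vectors -/
noncomputable def u (𝕜 : Type) [RCLike 𝕜] (i : ℕ) : 𝕜 :=
  (((-1 : ℝ) ^ i * (Real.sqrt ((i : ℝ) + 1))⁻¹ : ℝ) : 𝕜)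

lemma norm_u (i : ℕ) : ‖u 𝕜 i‖ = (Real.sqrt ((i : ℝ) + 1))⁻¹ := by
  unfold u
  rw [RCLike.norm_ofReal, abs_mul, abs_pow, abs_neg, abs_one, one_pow, one_mul,
    abs_of_pos (by have := sqrt_succ_pos i; positivity)]

lemma cf_mul_u (i : ℕ) : (cf i : 𝕜) * u 𝕜 i = (((1 / 4) * ((-1 : ℝ) ^ i / ((i : ℝ) + 1)) : ℝ) : 𝕜) := by
  unfold u cf
  rw [← RCLike.ofReal_mul]
  congr 1
  have h0 := sqrt_succ_pos i
  have h1 : Real.sqrt ((i : ℝ) + 1) * Real.sqrt ((i : ℝ) + 1) = (i : ℝ) + 1 :=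
    Real.mul_self_sqrt (by positivity)
  have h2 : (-1 : ℝ) ^ i / ((i : ℝ) + 1) =
      (-1 : ℝ) ^ i * ((Real.sqrt ((i : ℝ) + 1))⁻¹ * (Real.sqrt ((i : ℝ) + 1))⁻¹) := by
    rw [← mul_inv, h1, div_eq_mul_inv]
  rw [h2, mul_inv]
  ring

/-- the test vectors are bounded -/
lemma V_test_le (n : ℕ) (A : Finset ℕ) (m : ℕ) :
    V (fun i => if i < n then u 𝕜 i else 0) A m ≤ 4 := by
  unfold V
  set k := A.card with hk
  have h1 : (Real.sqrt (k : ℝ))⁻¹ * ∑ i ∈ A, ‖if i < n then u 𝕜 i else 0‖ ≤ 3 := by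
    refine le_trans ?_ (sum_inv_sqrt_finset A)
    apply mul_le_mul_of_nonneg_left _ (by positivity)
    refine sum_le_sum fun i _ => ?_
    split_ifs
    · rw [norm_u]
    · rw [norm_zero]; positivity
  have h2 : ∑ i ∈ Ico k m \ A, (cf i : 𝕜) * (if i < n then u 𝕜 i else 0) =
      ((∑ i ∈ Ico k (min m n), (1 / 4) * ((-1 : ℝ) ^ i / ((i : ℝ) + 1)) -
        ∑ i ∈ Ico k (min m n) ∩ A, (1 / 4) * ((-1 : ℝ) ^ i / ((i : ℝ) + 1)) : ℝ) : 𝕜) := by
    have e1 : ∑ i ∈ Ico k (min m n), (1 / 4) * ((-1 : ℝ) ^ i / ((i : ℝ) + 1)) -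
        ∑ i ∈ Ico k (min m n) ∩ A, (1 / 4) * ((-1 : ℝ) ^ i / ((i : ℝ) + 1)) =
        ∑ i ∈ Ico k (min m n) \ A, (1 / 4) * ((-1 : ℝ) ^ i / ((i : ℝ) + 1)) := by
      rw [← sum_inter_add_sum_sdiff (Ico k (min m n)) A]
      ring
    rw [e1, RCLike.ofReal_sum]
    have hsub : Ico k (min m n) \ A ⊆ Ico k m \ A :=
      sdiff_subset_sdiff (Ico_subset_Ico_right (min_le_left _ _)) le_rfl
    rw [← sum_subset hsub]
    · refine sum_congr rfl fun i hi => ?_
      rw [Finset.mem_sdiff, mem_Ico, lt_min_iff] at hi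
      rw [if_pos hi.1.2.2, cf_mul_u]
    · intro i hi hi'
      rw [Finset.mem_sdiff, mem_Ico] at hi hi'
      rw [lt_min_iff] at hi'
      have : ¬ i < n := fun h => hi' ⟨⟨hi.1.1, hi.1.2, h⟩, hi.2⟩
      rw [if_neg this, mul_zero]
  have h3 : |∑ i ∈ Ico k (min m n), (1 / 4) * ((-1 : ℝ) ^ i / ((i : ℝ) + 1))| ≤ 1 / 4 := by
    rw [← mul_sum, abs_mul]
    have := alt_sum_abs k (min m n)
    rw [abs_of_pos (by norm_num : (0 : ℝ) < 1 / 4)]
    linarith
  have h4 : |∑ i ∈ Ico k (min m n) ∩ A, (1 / 4) * ((-1 : ℝ) ^ i / ((i : ℝ) + 1))| ≤ 1 / 4 := by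
    calc |∑ i ∈ Ico k (min m n) ∩ A, (1 / 4) * ((-1 : ℝ) ^ i / ((i : ℝ) + 1))|
        ≤ ∑ i ∈ Ico k (min m n) ∩ A, |(1 / 4) * ((-1 : ℝ) ^ i / ((i : ℝ) + 1))| :=
          abs_sum_le_sum_abs _ _
      _ ≤ ∑ _i ∈ Ico k (min m n) ∩ A, 1 / 4 * (1 / ((k : ℝ) + 1)) := by
          refine sum_le_sum fun i hi => ?_
          rw [mem_inter, mem_Ico] at hi
          rw [abs_mul, abs_of_pos (by norm_num : (0 : ℝ) < 1 / 4), abs_div, abs_pow, abs_neg,
            abs_one, one_pow, abs_of_pos (by positivity : (0 : ℝ) < (i : ℝ) + 1)]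
          apply mul_le_mul_of_nonneg_left _ (by norm_num)
          apply one_div_le_one_div_of_le (by positivity)
          have : (k : ℝ) ≤ i := by exact_mod_cast hi.1.1
          linarith
      _ = ((Ico k (min m n) ∩ A).card : ℝ) * (1 / 4 * (1 / ((k : ℝ) + 1))) := by
          rw [sum_const, nsmul_eq_mul]
      _ ≤ (k : ℝ) * (1 / 4 * (1 / ((k : ℝ) + 1))) := by
          apply mul_le_mul_of_nonneg_right _ (by positivity)
          exact_mod_cast card_le_card inter_subset_right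
      _ ≤ 1 / 4 := by
          have hk0 : (0 : ℝ) ≤ k := Nat.cast_nonneg k
          have : (k : ℝ) * (1 / ((k : ℝ) + 1)) ≤ 1 := by
            rw [mul_one_div, div_le_one (by positivity)]
            linarith
          nlinarith
  rw [h2, RCLike.norm_ofReal]
  have h5 := abs_sub (∑ i ∈ Ico k (min m n), (1 / 4) * ((-1 : ℝ) ^ i / ((i : ℝ) + 1)))
    (∑ i ∈ Ico k (min m n) ∩ A, (1 / 4) * ((-1 : ℝ) ^ i / ((i : ℝ) + 1)))
  linarith

/-- the projections on the even coordinates of the test vectors are unbounded -/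
lemma V_even (N : ℕ) :
    (1 / 8) * ∑ j ∈ range N, 1 / ((j : ℝ) + 1) ≤
      V (fun i => if i ∈ (range (2 * N)).filter (fun i => Even i) then u 𝕜 i else 0) ∅ (2 * N) := by
  unfold V
  have h1 : ∑ i ∈ Ico (∅ : Finset ℕ).card (2 * N) \ ∅, (cf i : 𝕜) *
      (if i ∈ (range (2 * N)).filter (fun i => Even i) then u 𝕜 i else 0) =
      ((∑ j ∈ range N, (1 / 4) * (1 / (2 * (j : ℝ) + 1)) : ℝ) : 𝕜) := by
    rw [card_empty, sdiff_empty, ← range_eq_Ico]
    have h2 : (range (2 * N)).filter (fun i => Even i) = (range N).image (fun j => 2 * j) := by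
      ext i
      simp only [mem_filter, mem_range, mem_image]
      constructor
      · rintro ⟨h, j, rfl⟩
        exact ⟨j, by omega, by ring⟩
      · rintro ⟨j, hj, rfl⟩
        exact ⟨by omega, even_two_mul j⟩
    rw [← sum_subset (filter_subset (fun i => Even i) (range (2 * N)))]
    · rw [RCLike.ofReal_sum]
      rw [h2, sum_image (fun a _ b _ hab => by simpa using hab)]
      refine sum_congr rfl fun j hj => ?_
      rw [if_pos (mem_image_of_mem _ hj), cf_mul_u]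
      congr 1
      push_cast
      rw [pow_mul]
      norm_num
    · intro i _ hi
      rw [if_neg hi, mul_zero]
  rw [h1, RCLike.norm_ofReal]
  simp only [sum_empty, mul_zero, zero_add]
  refine le_trans ?_ (le_abs_self _)
  rw [mul_sum]
  refine sum_le_sum fun j _ => ?_
  have hj : (0 : ℝ) ≤ j := Nat.cast_nonneg j
  have : 1 / (2 * ((j : ℝ) + 1)) ≤ 1 / (2 * (j : ℝ) + 1) :=
    one_div_le_one_div_of_le (by positivity) (by linarith)
  have h3 : 1 / (2 * ((j : ℝ) + 1)) = (1 / 2) * (1 / ((j : ℝ) + 1)) := by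
    field_simp
  rw [h3] at this
  linarith

end Conditional

section Space

variable (𝕜 : Type) [RCLike 𝕜]

/-- The index set of the functionals: a finite set, a natural number, a choice of multipliers. -/
abbrev Idx : Type := Finset ℕ × ℕ × {ε : ℕ → 𝕜 // ∀ i, ‖ε i‖ ≤ 1}

variable {𝕜}

/-- The functional with index `p`, applied to a scalar sequence. -/
noncomputable def L (x : ℕ → 𝕜) (p : Idx 𝕜) : 𝕜 :=
  (((Real.sqrt (p.1.card : ℝ))⁻¹ : ℝ) : 𝕜) * ∑ i ∈ p.1, p.2.2.1 i * x i +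
    ∑ i ∈ Ico p.1.card p.2.1 \ p.1, (cf i : 𝕜) * x i

lemma norm_L_le (x : ℕ → 𝕜) (p : Idx 𝕜) : ‖L x p‖ ≤ V x p.1 p.2.1 := by
  unfold L V
  refine (norm_add_le _ _).trans (add_le_add ?_ le_rfl)
  rw [norm_mul, RCLike.norm_ofReal, abs_of_nonneg (by positivity)]
  apply mul_le_mul_of_nonneg_left _ (by positivity)
  refine (norm_sum_le _ _).trans (sum_le_sum fun i _ => ?_)
  rw [norm_mul]
  exact mul_le_of_le_one_left (norm_nonneg _) (p.2.2.2 i)

lemma exists_unit (w : 𝕜) : ∃ θ : 𝕜, ‖θ‖ = 1 ∧ w = θ * (‖w‖ : 𝕜) := by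
  by_cases h : w = 0
  · exact ⟨1, norm_one, by simp [h]⟩
  · have hn : (‖w‖ : 𝕜) ≠ 0 := by
      rw [Ne, RCLike.ofReal_eq_zero, norm_eq_zero]
      exact h
    refine ⟨w / (‖w‖ : 𝕜), ?_, by field_simp⟩
    rw [norm_div, RCLike.norm_ofReal, abs_norm, div_self]
    rwa [norm_ne_zero_iff]

lemma exists_mult (x θ : 𝕜) (hθ : ‖θ‖ = 1) : ∃ ε : 𝕜, ‖ε‖ ≤ 1 ∧ ε * x = θ * (‖x‖ : 𝕜) := by
  obtain ⟨φ, hφ, hx⟩ := exists_unit x
  have hφ0 : φ ≠ 0 := by
    intro h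
    rw [h, norm_zero] at hφ
    exact zero_ne_one hφ
  refine ⟨θ * φ⁻¹, ?_, ?_⟩
  · rw [norm_mul, norm_inv, hφ, hθ]
    norm_num
  · nth_rewrite 1 [hx]
    field_simp

lemma exists_L (x : ℕ → 𝕜) (A : Finset ℕ) (n : ℕ) :
    ∃ ε : {ε : ℕ → 𝕜 // ∀ i, ‖ε i‖ ≤ 1}, ‖L x (A, n, ε)‖ = V x A n := by
  obtain ⟨θ, hθ, hw⟩ := exists_unit (∑ i ∈ Ico A.card n \ A, (cf i : 𝕜) * x i)
  choose ε hε1 hε2 using fun i => exists_mult (x i) θ hθ
  refine ⟨⟨ε, hε1⟩, ?_⟩
  have h1 : L x (A, n, ⟨ε, hε1⟩) = θ * ((V x A n : ℝ) : 𝕜) := by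
    unfold L V
    simp only
    nth_rewrite 1 [hw]
    rw [sum_congr rfl (fun i _ => hε2 i), ← mul_sum]
    push_cast
    ring
  rw [h1, norm_mul, hθ, one_mul, RCLike.norm_ofReal, abs_of_nonneg (V_nonneg x A n)]

lemma L_add (x y : ℕ → 𝕜) (p : Idx 𝕜) : L (x + y) p = L x p + L y p := by
  unfold L
  simp only [Pi.add_apply, mul_add, sum_add_distrib]
  ring

lemma L_smul (c : 𝕜) (x : ℕ → 𝕜) (p : Idx 𝕜) : L (c • x) p = c * L x p := by
  unfold L
  simp only [Pi.smul_apply, smul_eq_mul, mul_sum, mul_add]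
  congr 1
  · exact sum_congr rfl fun i _ => by ring
  · exact sum_congr rfl fun i _ => by ring

variable (𝕜)

/-- The ambient space: bounded functions on the set of indices. -/
abbrev Amb : Type := lp (fun _ : Idx 𝕜 => 𝕜) ⊤

/-- The image of the unit vector `e_j`. -/
noncomputable def T (j : ℕ) : Amb 𝕜 :=
  ⟨fun p => L (Pi.single j 1) p, memℓp_infty ⟨2, by
    rintro _ ⟨p, rfl⟩
    refine (norm_L_le _ _).trans ((V_single_le j 1 _ _).trans ?_)
    rw [norm_one, mul_one]⟩⟩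

lemma T_apply (j : ℕ) (p : Idx 𝕜) : (T 𝕜 j : Amb 𝕜) p = L (Pi.single j 1) p := rfl

/-- The index of the coordinate functional. -/
def cidx (i : ℕ) : Idx 𝕜 := ({i}, 0, ⟨fun _ => 1, fun _ => norm_one.le⟩)

lemma L_cidx (x : ℕ → 𝕜) (i : ℕ) : L x (cidx 𝕜 i) = x i := by
  simp [L, cidx]

/-- The coordinate functionals on the ambient space. -/
noncomputable def coord (i : ℕ) : Amb 𝕜 →L[𝕜] 𝕜 :=
  lp.evalCLM 𝕜 (fun _ : Idx 𝕜 => 𝕜) ⊤ (cidx 𝕜 i)

lemma coord_apply (i : ℕ) (f : Amb 𝕜) : coord 𝕜 i f = f (cidx 𝕜 i) := rfl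

/-- The closed linear span of the unit vectors. -/
noncomputable def Sub : Submodule 𝕜 (Amb 𝕜) :=
  (Submodule.span 𝕜 (Set.range (T 𝕜))).topologicalClosure

/-- The space. -/
def Sp : Type := ↥(Sub 𝕜)

noncomputable instance : NormedAddCommGroup (Sp 𝕜) :=
  inferInstanceAs (NormedAddCommGroup ↥(Sub 𝕜))

noncomputable instance : NormedSpace 𝕜 (Sp 𝕜) :=
  inferInstanceAs (NormedSpace 𝕜 ↥(Sub 𝕜))

instance : CompleteSpace (Sp 𝕜) :=
  inferInstanceAs (CompleteSpace ↥((Submodule.span 𝕜 (Set.range (T 𝕜))).topologicalClosure))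

/-- The inclusion in the ambient space. -/
noncomputable def inc : Sp 𝕜 →ₗᵢ[𝕜] Amb 𝕜 := (Sub 𝕜).subtypeₗᵢ

lemma inc_mem (f : Sp 𝕜) : inc 𝕜 f ∈ (Submodule.span 𝕜 (Set.range (T 𝕜))).topologicalClosure :=
  Subtype.prop (p := fun z => z ∈ Sub 𝕜) f

/-- The basis. -/
noncomputable def bx (j : ℕ) : Sp 𝕜 :=
  (⟨T 𝕜 j, Submodule.le_topologicalClosure _ (Submodule.subset_span ⟨j, rfl⟩)⟩ : ↥(Sub 𝕜))

lemma inc_bx (j : ℕ) : inc 𝕜 (bx 𝕜 j) = T 𝕜 j := rfl

/-- The coordinate functionals of the basis. -/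
noncomputable def bxs (i : ℕ) : Sp 𝕜 →L[𝕜] 𝕜 :=
  (coord 𝕜 i).comp (inc 𝕜).toContinuousLinearMap

lemma bxs_apply (i : ℕ) (f : Sp 𝕜) : bxs 𝕜 i f = (inc 𝕜 f) (cidx 𝕜 i) := rfl

/-- The functional `f ↦ f p - L (coordinates of f) p` on the ambient space. -/
noncomputable def Phi (p : Idx 𝕜) : Amb 𝕜 →L[𝕜] 𝕜 :=
  lp.evalCLM 𝕜 (fun _ : Idx 𝕜 => 𝕜) ⊤ p -
    ((((Real.sqrt (p.1.card : ℝ))⁻¹ : ℝ) : 𝕜) • ∑ i ∈ p.1, p.2.2.1 i • coord 𝕜 i +
    ∑ i ∈ Ico p.1.card p.2.1 \ p.1, (cf i : 𝕜) • coord 𝕜 i)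

lemma Phi_apply (p : Idx 𝕜) (f : Amb 𝕜) : Phi 𝕜 p f = f p - L (fun i => coord 𝕜 i f) p := by
  unfold Phi L
  simp only [sub_apply, add_apply, smul_apply, _root_.sum_apply, smul_eq_mul]
  rfl

lemma apply_eq_L (f : Sp 𝕜) (p : Idx 𝕜) : (inc 𝕜 f) p = L (fun i => bxs 𝕜 i f) p := by
  have hle : (Submodule.span 𝕜 (Set.range (T 𝕜))).topologicalClosure ≤
      LinearMap.ker (Phi 𝕜 p : Amb 𝕜 →ₗ[𝕜] 𝕜) := by
    apply Submodule.topologicalClosure_minimal
    · rw [Submodule.span_le]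
      rintro _ ⟨j, rfl⟩
      rw [SetLike.mem_coe, LinearMap.mem_ker]
      change Phi 𝕜 p (T 𝕜 j) = 0
      rw [Phi_apply, T_apply, sub_eq_zero]
      congr 1
      ext i
      rw [coord_apply, T_apply, L_cidx]
    · exact (Phi 𝕜 p).isClosed_ker
  have h := hle (inc_mem 𝕜 f)
  rw [LinearMap.mem_ker] at h
  change Phi 𝕜 p (inc 𝕜 f) = 0 at h
  rw [Phi_apply, sub_eq_zero] at h
  exact h

lemma V_le_norm (f : Sp 𝕜) (A : Finset ℕ) (n : ℕ) : V (fun i => bxs 𝕜 i f) A n ≤ ‖f‖ := by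
  obtain ⟨ε, hε⟩ := exists_L (fun i => bxs 𝕜 i f) A n
  have h := lp.norm_apply_le_norm ENNReal.top_ne_zero (inc 𝕜 f) ((A, n, ε) : Idx 𝕜)
  rw [apply_eq_L, hε, LinearIsometry.norm_map] at h
  exact h

lemma norm_le_of_V {f : Sp 𝕜} {C : ℝ} (hC : 0 ≤ C)
    (h : ∀ A n, V (fun i => bxs 𝕜 i f) A n ≤ C) : ‖f‖ ≤ C := by
  rw [← (inc 𝕜).norm_map f]
  refine lp.norm_le_of_forall_le hC fun p => ?_
  rw [apply_eq_L]
  exact (norm_L_le _ p).trans (h _ _)

lemma bxs_bx (i j : ℕ) : bxs 𝕜 i (bx 𝕜 j) = if i = j then 1 else 0 := by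
  rw [bxs_apply, inc_bx, T_apply, L_cidx, Pi.single_apply]

lemma isBasis : IsBasis (bx 𝕜) (bxs 𝕜) where
  dense := by
    intro y
    rw [(inc 𝕜).isometry.isEmbedding.toIsInducing.closure_eq_preimage_closure_image]
    have hy : inc 𝕜 y ∈ closure ((Submodule.span 𝕜 (Set.range (T 𝕜)) : Submodule 𝕜 (Amb 𝕜)) :
        Set (Amb 𝕜)) := by
      rw [← Submodule.topologicalClosure_coe]
      exact inc_mem 𝕜 y
    refine closure_mono ?_ hy
    intro z hz
    have hz' : z ∈ Submodule.span 𝕜 (Set.range (T 𝕜)) := hz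
    have hr : Set.range (T 𝕜) = (inc 𝕜).toLinearMap '' Set.range (bx 𝕜) := by
      rw [← Set.range_comp]
      rfl
    rw [hr, Submodule.span_image, Submodule.mem_map] at hz'
    obtain ⟨w, hw, hwz⟩ := hz'
    exact ⟨w, hw, hwz⟩
  biorthogonal := bxs_bx 𝕜
  total := by
    intro f hf
    have h : ‖f‖ ≤ 0 := by
      apply norm_le_of_V 𝕜 le_rfl
      intro A n
      have : (fun i => bxs 𝕜 i f) = 0 := funext hf
      rw [this, V_zero]
    exact norm_le_zero_iff.1 h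
  bounded := by
    refine ⟨2, fun n => ⟨?_, ?_⟩⟩
    · apply norm_le_of_V 𝕜 zero_le_two
      intro A m
      have h1 : (fun i => bxs 𝕜 i (bx 𝕜 n)) = Pi.single n 1 := by
        ext i
        rw [bxs_bx, Pi.single_apply]
      rw [h1]
      refine (V_single_le n 1 _ _).trans ?_
      rw [norm_one, mul_one]
    · apply ContinuousLinearMap.opNorm_le_bound _ zero_le_two
      intro f
      have h1 := V_le_norm 𝕜 f {n} 0
      rw [V_singleton] at h1
      have h2 := norm_nonneg f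
      linarith

lemma bxs_add_sum (f : Sp 𝕜) (A : Finset ℕ) (ε : ℕ → 𝕜) (i : ℕ) :
    bxs 𝕜 i (f + ∑ n ∈ A, ε n • bx 𝕜 n) = bxs 𝕜 i f + if i ∈ A then ε i else 0 := by
  rw [map_add, map_sum]
  congr 1
  have h1 : ∀ n ∈ A, bxs 𝕜 i (ε n • bx 𝕜 n) = if i = n then ε n else 0 := by
    intro n _
    rw [map_smul, bxs_bx, smul_eq_mul, mul_ite, mul_one, mul_zero]
  rw [sum_congr rfl h1, sum_ite_eq]

lemma propertyA_aux (f : Sp 𝕜) (A B : Finset ℕ) (ε η : ℕ → 𝕜) (hf : ∀ n, ‖bxs 𝕜 n f‖ ≤ 1)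
    (hcard : A.card = B.card) (hAB : Disjoint A B) (hA : ∀ n ∈ A, bxs 𝕜 n f = 0)
    (hB : ∀ n ∈ B, bxs 𝕜 n f = 0) (hε : ∀ n ∈ A, ‖ε n‖ = 1) (hη : ∀ n ∈ B, ‖η n‖ = 1) :
    ‖f + ∑ n ∈ A, ε n • bx 𝕜 n‖ ≤ ‖f + ∑ n ∈ B, η n • bx 𝕜 n‖ := by
  apply norm_le_of_V 𝕜 (norm_nonneg _)
  intro A₁ n
  obtain ⟨A', hA'⟩ := V_exchange (fun i => bxs 𝕜 i f) hf A B ε η hA hB hAB hcard hε hη A₁ n
  have h1 : (fun i => bxs 𝕜 i (f + ∑ n ∈ A, ε n • bx 𝕜 n)) =
      fun i => bxs 𝕜 i f + if i ∈ A then ε i else 0 := funext (bxs_add_sum 𝕜 f A ε)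
  have h2 : (fun i => bxs 𝕜 i (f + ∑ n ∈ B, η n • bx 𝕜 n)) =
      fun i => bxs 𝕜 i f + if i ∈ B then η i else 0 := funext (bxs_add_sum 𝕜 f B η)
  rw [h1]
  refine hA'.trans ?_
  rw [← h2]
  exact V_le_norm 𝕜 _ _ _

lemma propertyA : PropertyA (bx 𝕜) (bxs 𝕜) := by
  intro f A B ε η hf hcard hAB hA hB hε hη
  exact le_antisymm (propertyA_aux 𝕜 f A B ε η hf hcard hAB hA hB hε hη)
    (propertyA_aux 𝕜 f B A η ε hf hcard.symm hAB.symm hB hA hη hε)

/-- The coordinate projection on a finite set. -/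
noncomputable def proj (F : Finset ℕ) : Sp 𝕜 →L[𝕜] Sp 𝕜 :=
  ∑ i ∈ F, (bxs 𝕜 i).smulRight (bx 𝕜 i)

lemma proj_apply (F : Finset ℕ) (f : Sp 𝕜) : proj 𝕜 F f = ∑ i ∈ F, bxs 𝕜 i f • bx 𝕜 i := by
  unfold proj
  rw [_root_.sum_apply]
  rfl

lemma bxs_sum (F : Finset ℕ) (c : ℕ → 𝕜) (i : ℕ) :
    bxs 𝕜 i (∑ n ∈ F, c n • bx 𝕜 n) = if i ∈ F then c i else 0 := by
  have := bxs_add_sum 𝕜 0 F c i
  rwa [zero_add, map_zero, zero_add] at this

/-- The test vectors. -/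
noncomputable def test (n : ℕ) : Sp 𝕜 := ∑ i ∈ range n, u 𝕜 i • bx 𝕜 i

lemma norm_test_le (n : ℕ) : ‖test 𝕜 n‖ ≤ 4 := by
  apply norm_le_of_V 𝕜 (by norm_num)
  intro A m
  have h1 : (fun i => bxs 𝕜 i (test 𝕜 n)) = fun i => if i < n then u 𝕜 i else 0 := by
    ext i
    rw [test, bxs_sum]
    simp only [mem_range]
  rw [h1]
  exact V_test_le n A m

lemma not_bounded (C : ℝ) : ∃ F : Finset ℕ, C < ‖proj 𝕜 F‖ := by
  by_contra hcon
  push Not at hcon
  have hdiv := Real.tendsto_sum_range_one_div_nat_succ_atTop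
  obtain ⟨N, hN⟩ := (hdiv.eventually (Filter.eventually_gt_atTop (32 * C))).exists
  set F := (range (2 * N)).filter (fun i => Even i) with hF
  have h1 : ‖proj 𝕜 F (test 𝕜 (2 * N))‖ ≤ C * 4 := by
    refine ((proj 𝕜 F).le_opNorm _).trans ?_
    exact mul_le_mul (hcon F) (norm_test_le 𝕜 _) (norm_nonneg _) ((norm_nonneg _).trans (hcon F))
  have h2 : (fun i => bxs 𝕜 i (proj 𝕜 F (test 𝕜 (2 * N)))) =
      fun i => if i ∈ F then u 𝕜 i else 0 := by
    ext i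
    rw [proj_apply, bxs_sum]
    by_cases hi : i ∈ F
    · rw [if_pos hi, if_pos hi, test, bxs_sum, if_pos]
      rw [hF] at hi
      exact (mem_filter.1 hi).1
    · rw [if_neg hi, if_neg hi]
  have h3 := V_le_norm 𝕜 (proj 𝕜 F (test 𝕜 (2 * N))) ∅ (2 * N)
  rw [h2] at h3
  have h4 := V_even (𝕜 := 𝕜) N
  rw [← hF] at h4
  have h5 : 1 / 8 * ∑ j ∈ range N, 1 / ((j : ℝ) + 1) ≤ C * 4 := h4.trans (h3.trans h1)
  linarith

lemma not_isUnconditional : ¬ IsUnconditional (bx 𝕜) (bxs 𝕜) := by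
  intro h
  have hpt : ∀ f : Sp 𝕜, ∃ C, ∀ F : Finset ℕ, ‖proj 𝕜 F f‖ ≤ C := by
    intro f
    have hs : Summable (fun n => bxs 𝕜 n f • bx 𝕜 n) := (h f).summable
    obtain ⟨s, hs'⟩ := summable_iff_vanishing_norm.1 hs 1 zero_lt_one
    refine ⟨1 + ∑ i ∈ s, ‖bxs 𝕜 i f • bx 𝕜 i‖, fun F => ?_⟩
    rw [proj_apply, ← sum_inter_add_sum_sdiff F s]
    have h1 : ‖∑ i ∈ F \ s, bxs 𝕜 i f • bx 𝕜 i‖ < 1 := hs' _ sdiff_disjoint
    have h2 : ‖∑ i ∈ F ∩ s, bxs 𝕜 i f • bx 𝕜 i‖ ≤ ∑ i ∈ s, ‖bxs 𝕜 i f • bx 𝕜 i‖ :=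
      (norm_sum_le _ _).trans
        (sum_le_sum_of_subset_of_nonneg inter_subset_right fun _ _ _ => norm_nonneg _)
    exact (norm_add_le _ _).trans (by linarith)
  obtain ⟨C, hC⟩ := banach_steinhaus hpt
  obtain ⟨F, hF⟩ := not_bounded 𝕜 C
  exact absurd (hC F) (not_le.2 hF)

end Space

/-- **Theorem** (negative answer to Q1).  For `𝕜 = ℝ` and `𝕜 = ℂ` (more generally for every
`RCLike` field) there are a Banach space over `𝕜` and a basis of it which has Property (A) and is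
not unconditional. -/
theorem result : ∀ (𝕜 : Type) [RCLike 𝕜],
    ∃ (X : Type) (_ : NormedAddCommGroup X) (_ : NormedSpace 𝕜 X) (_ : CompleteSpace X)
      (x : ℕ → X) (xs : ℕ → X →L[𝕜] 𝕜),
      IsBasis x xs ∧ PropertyA x xs ∧ ¬ IsUnconditional x xs :=
  fun 𝕜 _ => ⟨Sp 𝕜, inferInstance, inferInstance, inferInstance, bx 𝕜, bxs 𝕜, isBasis 𝕜,
    propertyA 𝕜, not_isUnconditional 𝕜⟩

end Pool.Agent.Results.MP_e9a5f2_an.ConditionalPropertyA
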